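import Pool.Agent.Y184.SP.Base

/-! The part `StComp` of MP_4ff127_gt: comparison of the functions `near` and `far`. -/

set_option autoImplicit false

open Set Topology Filter
open scoped ContDiff

namespace Run7.h964.SP

open Pool.Agent.Y184.SP

theorem lam_zero {x : ℂ} (hx : x ∈ Lam) (h1 : |x.re| ≤ 1 / 2) (h2 : |x.im| ≤ 1 / 2) : x = 0 := by
  obtain ⟨m, n, rfl⟩ := hx
  have hm : m = 0 := by
    have h : |(m : ℝ)| ≤ 1 / 2 := by simpa using h1
    have h' : |(m : ℝ)| < 1 := by linarith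
    exact Int.abs_lt_one_iff.mp (by exact_mod_cast h')
  have hn : n = 0 := by
    have h : |(n : ℝ)| ≤ 1 / 2 := by simpa using h2
    have h' : |(n : ℝ)| < 1 := by linarith
    exact Int.abs_lt_one_iff.mp (by exact_mod_cast h')
  simp [hm, hn]

theorem red_re (x : ℂ) : |(red x).re| ≤ 1 / 2 := by
  have : (red x).re = x.re - round x.re := by simp [red]
  rw [this]
  exact abs_sub_round x.re

theorem red_im (x : ℂ) : |(red x).im| ≤ 1 / 2 := by
  have : (red x).im = x.im - round x.im := by simp [red]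
  rw [this]
  exact abs_sub_round x.im

theorem red_add (x : ℂ) : ∃ l ∈ Lam, red x + l = x :=
  ⟨((round x.re : ℤ) : ℂ) + ((round x.im : ℤ) : ℂ) * Complex.I, ⟨_, _, rfl⟩, by
    simp only [red]; ring⟩

theorem lam_add {x l : ℂ} (hx : x ∈ Lam) (hl : l ∈ Lam) : x + l ∈ Lam := by
  obtain ⟨m, n, rfl⟩ := hx
  obtain ⟨m', n', rfl⟩ := hl
  exact ⟨m + m', n + n', by push_cast; ring⟩

theorem red_notin {x : ℂ} (hx : x ∉ Lam) : red x ∉ Lam := by
  intro h
  obtain ⟨l, hl, he⟩ := red_add x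
  exact hx (he ▸ lam_add h hl)

theorem norm_red (x : ℂ) : ‖red x‖ ≤ 1 := by
  have h := Complex.norm_le_abs_re_add_abs_im (red x)
  linarith [red_re x, red_im x]

theorem comp : StComp := by
  intro G h c hG k C η hk hk1 hC hη
  -- bounds of G and h
  obtain ⟨M1, hM1⟩ : ∃ M1 : ℝ, ∀ x : ℂ, |x.re| ≤ 1 / 2 → |x.im| ≤ 1 / 2 → 1 / 8 ≤ ‖x‖ →
      |G x| ≤ M1 := by
    have hK : IsCompact ({x : ℂ | |x.re| ≤ 1 / 2 ∧ |x.im| ≤ 1 / 2 ∧ 1 / 8 ≤ ‖x‖}) := by
      refine Metric.isCompact_of_isClosed_isBounded ?_ ?_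
      · have c1 : IsClosed {x : ℂ | |x.re| ≤ 1 / 2} := isClosed_le (by fun_prop) (by fun_prop)
        have c2 : IsClosed {x : ℂ | |x.im| ≤ 1 / 2} := isClosed_le (by fun_prop) (by fun_prop)
        have c3 : IsClosed {x : ℂ | 1 / 8 ≤ ‖x‖} := isClosed_le (by fun_prop) (by fun_prop)
        exact c1.inter (c2.inter c3)
      · refine (Metric.isBounded_closedBall (x := (0 : ℂ)) (r := 1)).subset ?_
        intro x hx
        rw [Metric.mem_closedBall, dist_zero_right]
        have := Complex.norm_le_abs_re_add_abs_im x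
        linarith [hx.1, hx.2.1]
    have hc : ContinuousOn G ({x : ℂ | |x.re| ≤ 1 / 2 ∧ |x.im| ≤ 1 / 2 ∧ 1 / 8 ≤ ‖x‖}) := by
      intro x hx
      have hxL : x ∉ Lam := by
        intro hL
        have := lam_zero hL hx.1 hx.2.1
        have h3 := hx.2.2
        rw [this, norm_zero] at h3
        norm_num at h3
      exact (hG.smooth x hxL).continuousAt.continuousWithinAt
    obtain ⟨M, hM⟩ := hK.exists_bound_of_continuousOn hc
    exact ⟨M, fun x h1 h2 h3 => by simpa using hM x ⟨h1, h2, h3⟩⟩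
  obtain ⟨M2, hM2⟩ : ∃ M2 : ℝ, ∀ x : ℂ, ‖x‖ ≤ 1 / 8 → |h x| ≤ M2 := by
    have hc : ContinuousOn h (Metric.closedBall (0 : ℂ) (1 / 8)) := by
      intro x hx
      rw [Metric.mem_closedBall, dist_zero_right] at hx
      exact (hG.smooth_h x (by linarith)).continuousAt.continuousWithinAt
    obtain ⟨M, hM⟩ := (isCompact_closedBall (0 : ℂ) (1 / 8)).exists_bound_of_continuousOn hc
    exact ⟨M, fun x h1 => by simpa using hM x (by simpa using h1)⟩
  have hM1n : 0 ≤ M1 := (abs_nonneg _).trans (hM1 (1 / 2) (by norm_num) (by norm_num) (by norm_num))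
  have hM2n : 0 ≤ M2 := (abs_nonneg _).trans (hM2 0 (by norm_num))
  set U1 : ℝ := Real.log ((8 * η + 1) ^ 2 + 1) with hU1
  have hU1n : 0 ≤ U1 := Real.log_nonneg (by nlinarith [sq_nonneg (8 * η + 1)])
  set A : ℝ := 1 + C * η ^ 2 + U1 + M1 + M2 - 5 / 2 * Real.log ((η / 2) ^ 2) with hA
  set B1 : ℝ := Real.log 4 + 1 / 2 * Real.log 2 + M1 + A + 1 with hB1
  set B2 : ℝ := -Real.log (k / 16) + 1 / 2 * Real.log 2 + M2 + A + 1 with hB2
  set B : ℝ := |B1| + |B2| with hB
  have hBn : 0 ≤ B := by positivity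
  have hB1' : B1 ≤ B := by linarith [le_abs_self B1, abs_nonneg B2]
  have hB2' : B2 ≤ B := by linarith [le_abs_self B2, abs_nonneg B1]
  set η1 : ℝ := min (min (η / 4) (1 / 16)) (Real.exp (-B)) with hη1
  have hη1p : 0 < η1 := lt_min (lt_min (by positivity) (by norm_num)) (Real.exp_pos _)
  have hη1a : η1 ≤ η / 4 := (min_le_left _ _).trans (min_le_left _ _)
  have hη1b : η1 ≤ 1 / 16 := (min_le_left _ _).trans (min_le_right _ _)
  have hη1c : η1 ≤ Real.exp (-B) := min_le_right _ _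
  have hchi0 : ∀ x : ℂ, 0 ≤ chi x := fun x => bump.nonneg
  have hchi1 : ∀ x : ℂ, chi x ≤ 1 := fun x => bump.le_one
  have hchi : ∀ x : ℂ, ‖red x‖ < 1 / 8 → chi x = 1 := by
    intro x hx
    exact bump.one_of_mem_closedBall (by
      rw [Metric.mem_closedBall, dist_zero_right]
      exact hx.le)
  -- the values near the lattice
  have hnear : ∀ z : E, z ∈ W → ‖red z.1‖ < 1 / 8 →
      near k C z = Real.log (‖z.2 - red z.1‖ ^ 2 + k * ‖red z.1‖ ^ 4) - Real.log (‖red z.1‖ ^ 2)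
        + C * ‖z.2‖ ^ 2 ∧ G z.1 = Real.log (‖red z.1‖ ^ 2) + h (red z.1) ∧
        0 < ‖z.2 - red z.1‖ ^ 2 + k * ‖red z.1‖ ^ 4 := by
    intro z hz hx
    have hx0 : red z.1 ≠ 0 := by
      intro h0
      exact red_notin hz.1 (h0 ▸ ⟨0, 0, by simp⟩)
    have hxn : 0 < ‖red z.1‖ := norm_pos_iff.mpr hx0
    have hp : 0 < ‖z.2 - red z.1‖ ^ 2 + k * ‖red z.1‖ ^ 4 := by positivity
    refine ⟨?_, ?_, hp⟩
    · unfold near
      rw [hchi _ hx, one_mul, ← Real.log_div hp.ne' (by positivity)]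
      congr 2
      have : z.2 / red z.1 - 1 = (z.2 - red z.1) / red z.1 := by
        field_simp
      rw [this, norm_div]
      field_simp
    · obtain ⟨l, hl, he⟩ := red_add z.1
      have h1 : G z.1 = G (red z.1) := by
        conv_lhs => rw [← he]
        exact hG.per _ _ hl
      rw [h1]
      exact hG.eq _ (by linarith) hx0
  have hfarG : ∀ z : E, z ∈ W → 1 / 8 ≤ ‖red z.1‖ → |G z.1| ≤ M1 := by
    intro z hz hx
    obtain ⟨l, hl, he⟩ := red_add z.1
    have h1 : G z.1 = G (red z.1) := by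
      conv_lhs => rw [← he]
      exact hG.per _ _ hl
    rw [h1]
    exact hM1 _ (red_re _) (red_im _) hx
  refine ⟨A, η1, η / 2, hη1p, by linarith, by linarith, ?_, ?_⟩
  · intro z hz hy
    have hy0 : 0 < ‖z.2‖ := norm_pos_iff.mpr hz.2
    have hlogy : Real.log ‖z.2‖ ≤ -B := by
      have := Real.log_le_log hy0 (hy.trans hη1c)
      rwa [Real.log_exp] at this
    have hlog2 : Real.log (‖z.2‖ ^ 2) = 2 * Real.log ‖z.2‖ := by
      rw [Real.log_pow]; norm_num
    have h1y : Real.log (1 + ‖z.2‖ ^ 2) ≤ Real.log 2 := by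
      refine Real.log_le_log (by positivity) ?_
      have h61 : ‖z.2‖ ≤ 1 := by linarith
      have : ‖z.2‖ ^ 2 ≤ 1 := pow_le_one₀ (norm_nonneg _) h61
      linarith
    rcases lt_or_ge ‖red z.1‖ (1 / 8) with hx | hx
    · obtain ⟨hn, hGz, hp⟩ := hnear z hz hx
      rw [hn]
      unfold far
      rw [hGz, hlog2]
      have hkey : k * ‖z.2‖ ^ 4 / 16 ≤ ‖z.2 - red z.1‖ ^ 2 + k * ‖red z.1‖ ^ 4 := by
        rcases le_or_gt (‖z.2‖ / 2) ‖red z.1‖ with hc | hc
        · have h4 : (‖z.2‖ / 2) ^ 4 ≤ ‖red z.1‖ ^ 4 := pow_le_pow_left₀ (by positivity) hc 4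
          have h5 := mul_le_mul_of_nonneg_left h4 hk.le
          have h6 : k * (‖z.2‖ / 2) ^ 4 = k * ‖z.2‖ ^ 4 / 16 := by ring
          linarith [sq_nonneg ‖z.2 - red z.1‖]
        · have h4 : ‖z.2‖ / 2 ≤ ‖z.2 - red z.1‖ := by
            have := norm_sub_norm_le z.2 (red z.1)
            linarith
          have h5 : (‖z.2‖ / 2) ^ 2 ≤ ‖z.2 - red z.1‖ ^ 2 := pow_le_pow_left₀ (by positivity) h4 2
          have h6 : ‖z.2‖ ^ 4 ≤ ‖z.2‖ ^ 2 := by
            have h61 : ‖z.2‖ ≤ 1 := by linarith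
            exact pow_le_pow_of_le_one (norm_nonneg _) h61 (by norm_num)
          have h7 : k * ‖z.2‖ ^ 4 ≤ 1 * ‖z.2‖ ^ 2 := mul_le_mul hk1 h6 (by positivity) (by norm_num)
          have h8 : 0 ≤ k * ‖red z.1‖ ^ 4 := by positivity
          have h9 : (‖z.2‖ / 2) ^ 2 = ‖z.2‖ ^ 2 / 4 := by ring
          linarith [sq_nonneg ‖z.2‖]
      have hlk : Real.log (k / 16) + 4 * Real.log ‖z.2‖
          ≤ Real.log (‖z.2 - red z.1‖ ^ 2 + k * ‖red z.1‖ ^ 4) := by
        have h4 : Real.log (k * ‖z.2‖ ^ 4 / 16)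
            ≤ Real.log (‖z.2 - red z.1‖ ^ 2 + k * ‖red z.1‖ ^ 4) :=
          Real.log_le_log (by positivity) hkey
        have h5 : Real.log (k * ‖z.2‖ ^ 4 / 16) = Real.log (k / 16) + 4 * Real.log ‖z.2‖ := by
          rw [show k * ‖z.2‖ ^ 4 / 16 = k / 16 * ‖z.2‖ ^ 4 by ring,
            Real.log_mul (by positivity) (by positivity), Real.log_pow]
          norm_num
        rwa [h5] at h4
      have hh := (abs_le.mp (hM2 (red z.1) hx.le)).1
      have hCy : 0 ≤ C * ‖z.2‖ ^ 2 := by positivity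
      linarith
    · have hg := (abs_le.mp (hfarG z hz hx)).1
      unfold far near
      rw [hlog2]
      have hxn : 0 < ‖red z.1‖ := by linarith
      have hv : 1 / 4 ≤ ‖z.2 / red z.1 - 1‖ ^ 2 + k * ‖red z.1‖ ^ 2 := by
        have h4 : ‖z.2 / red z.1‖ ≤ 1 / 2 := by
          rw [norm_div, div_le_iff₀ hxn]
          linarith
        have h5 : 1 / 2 ≤ ‖z.2 / red z.1 - 1‖ := by
          have := norm_sub_norm_le (1 : ℂ) (z.2 / red z.1)
          rw [norm_one, norm_sub_rev] at this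
          linarith
        have h6 : 0 ≤ k * ‖red z.1‖ ^ 2 := by positivity
        nlinarith
      have hlv : -Real.log 4 ≤ Real.log (‖z.2 / red z.1 - 1‖ ^ 2 + k * ‖red z.1‖ ^ 2) := by
        have := Real.log_le_log (by norm_num) hv
        rw [one_div, Real.log_inv] at this
        exact this
      have hl4 : 0 ≤ Real.log 4 := Real.log_nonneg (by norm_num)
      have hcl : -Real.log 4 ≤ chi z.1 * Real.log (‖z.2 / red z.1 - 1‖ ^ 2 + k * ‖red z.1‖ ^ 2) := by
        have h1 := mul_le_mul_of_nonneg_left hlv (hchi0 z.1)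
        have h2 := mul_le_mul_of_nonneg_right (hchi1 z.1) hl4
        linarith
      have hCy : 0 ≤ C * ‖z.2‖ ^ 2 := by positivity
      linarith
  · intro z hz hy1 hy2
    have hy0 : 0 < ‖z.2‖ := norm_pos_iff.mpr hz.2
    have hlogy : Real.log ((η / 2) ^ 2) ≤ Real.log (‖z.2‖ ^ 2) :=
      Real.log_le_log (by positivity) (pow_le_pow_left₀ (by positivity) hy1 2)
    have h1y : 0 ≤ Real.log (1 + ‖z.2‖ ^ 2) := Real.log_nonneg (by nlinarith [sq_nonneg ‖z.2‖])
    have hCy : C * ‖z.2‖ ^ 2 ≤ C * η ^ 2 :=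
      mul_le_mul_of_nonneg_left (pow_le_pow_left₀ (by positivity) hy2 2) hC
    rcases lt_or_ge ‖red z.1‖ (1 / 8) with hx | hx
    · obtain ⟨hn, hGz, hp⟩ := hnear z hz hx
      rw [hn]
      unfold far
      rw [hGz]
      have hup : Real.log (‖z.2 - red z.1‖ ^ 2 + k * ‖red z.1‖ ^ 4) ≤ U1 := by
        refine Real.log_le_log hp ?_
        have h4 : ‖z.2 - red z.1‖ ≤ 8 * η + 1 := by
          have := norm_sub_le z.2 (red z.1)
          linarith
        have h5 : ‖z.2 - red z.1‖ ^ 2 ≤ (8 * η + 1) ^ 2 := pow_le_pow_left₀ (norm_nonneg _) h4 2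
        have h6 : ‖red z.1‖ ^ 4 ≤ 1 := pow_le_one₀ (norm_nonneg _) (norm_red _)
        have h7 : k * ‖red z.1‖ ^ 4 ≤ 1 := by
          calc k * ‖red z.1‖ ^ 4 ≤ 1 * 1 := mul_le_mul hk1 h6 (by positivity) (by norm_num)
            _ = 1 := by norm_num
        linarith
      have hh := (abs_le.mp (hM2 (red z.1) hx.le)).2
      linarith
    · have hg := (abs_le.mp (hfarG z hz hx)).2
      unfold far near
      have hxn : 0 < ‖red z.1‖ := by linarith
      have hup : Real.log (‖z.2 / red z.1 - 1‖ ^ 2 + k * ‖red z.1‖ ^ 2) ≤ U1 := by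
        have hpv : 0 < ‖z.2 / red z.1 - 1‖ ^ 2 + k * ‖red z.1‖ ^ 2 := by positivity
        refine Real.log_le_log hpv ?_
        have h3 : ‖z.2 / red z.1‖ ≤ 8 * η := by
          rw [norm_div, div_le_iff₀ hxn]
          nlinarith
        have h4 : ‖z.2 / red z.1 - 1‖ ≤ 8 * η + 1 := by
          have := norm_sub_le (z.2 / red z.1) 1
          rw [norm_one] at this
          linarith
        have h5 : ‖z.2 / red z.1 - 1‖ ^ 2 ≤ (8 * η + 1) ^ 2 := pow_le_pow_left₀ (norm_nonneg _) h4 2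
        have h6 : ‖red z.1‖ ^ 2 ≤ 1 := pow_le_one₀ (norm_nonneg _) (norm_red _)
        have h7 : k * ‖red z.1‖ ^ 2 ≤ 1 := by
          calc k * ‖red z.1‖ ^ 2 ≤ 1 * 1 := mul_le_mul hk1 h6 (by positivity) (by norm_num)
            _ = 1 := by norm_num
        linarith
      have hcl : chi z.1 * Real.log (‖z.2 / red z.1 - 1‖ ^ 2 + k * ‖red z.1‖ ^ 2) ≤ U1 := by
        have h1 := mul_le_mul_of_nonneg_left hup (hchi0 z.1)
        have h2 := mul_le_mul_of_nonneg_right (hchi1 z.1) hU1n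
        linarith
      linarith

end Run7.h964.SP
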