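import Pool.Agent.Y184.SP.Base

/-! The part `StRes` of MP_4ff127_gt: there is no elliptic function with one simple pole. -/

set_option autoImplicit false

open Set Topology Filter MeasureTheory Complex

namespace Run7.h964.SP

open Pool.Agent.Y184.SP

theorem lam_small {x : ℂ} (hx : x ∈ Lam) (h1 : |x.re| ≤ 1 / 2) (h2 : |x.im| ≤ 1 / 2) : x = 0 := by
  obtain ⟨m, n, rfl⟩ := hx
  have hm : m = 0 := by
    have h : |(m : ℝ)| ≤ 1 / 2 := by simpa using h1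
    have h' : |(m : ℝ)| < 1 := by linarith
    exact Int.abs_lt_one_iff.mp (by exact_mod_cast h')
  have hn : n = 0 := by
    have h : |(n : ℝ)| ≤ 1 / 2 := by simpa using h2
    have h' : |(n : ℝ)| < 1 := by linarith
    exact Int.abs_lt_one_iff.mp (by exact_mod_cast h')
  simp [hm, hn]

theorem main : StRes := by
  intro g hd hp ht
  have h0L : (0 : ℂ) ∈ Lam := ⟨0, 0, by simp⟩
  have h1L : (1 : ℂ) ∈ Lam := ⟨1, 0, by simp⟩
  have hIL : (I : ℂ) ∈ Lam := ⟨0, 1, by simp⟩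
  set F : ℂ → ℂ := fun x => g x + x⁻¹ with hF
  set S : Set ℂ := uIcc (-1 / 2 : ℝ) (1 / 2) ×ℂ uIcc (-1 / 2 : ℝ) (1 / 2) with hS
  have hmem : ∀ x : ℂ, x ∈ S ↔ |x.re| ≤ 1 / 2 ∧ |x.im| ≤ 1 / 2 := by
    intro x
    rw [hS, mem_reProdIm, uIcc_of_le (by norm_num : (-1 / 2 : ℝ) ≤ 1 / 2), mem_Icc, mem_Icc, abs_le,
      abs_le]
    constructor
    · rintro ⟨⟨a, b⟩, c, d⟩
      exact ⟨⟨by linarith, b⟩, by linarith, d⟩
    · rintro ⟨⟨a, b⟩, c, d⟩
      exact ⟨⟨by linarith, b⟩, by linarith, d⟩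
  have hSn : S ∈ 𝓝 (0 : ℂ) := by
    refine Filter.mem_of_superset (Metric.ball_mem_nhds (0 : ℂ) (by norm_num : (0 : ℝ) < 1 / 2)) ?_
    intro x hx
    rw [Metric.mem_ball, dist_zero_right] at hx
    exact (hmem x).2 ⟨(Complex.abs_re_le_norm x).trans hx.le, (Complex.abs_im_le_norm x).trans hx.le⟩
  have hdF : DifferentiableOn ℂ F (S \ {0}) := by
    intro x hx
    have hx0 : x ≠ 0 := hx.2
    have hxL : x ∉ Lam := fun h => hx0 (lam_small h ((hmem x).1 hx.1).1 ((hmem x).1 hx.1).2)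
    exact ((hd x hxL).add (differentiableAt_inv hx0)).differentiableWithinAt
  have ho : (fun z => F z - F 0) =o[𝓝[≠] 0] fun z => (z - 0)⁻¹ := by
    refine Asymptotics.isLittleO_of_tendsto' ?_ ?_
    · filter_upwards [self_mem_nhdsWithin] with z hz h
      exact absurd (by simpa using h) hz
    · have h1 : Tendsto (fun z : ℂ => z * g z + 1 - z * F 0) (𝓝[≠] 0) (𝓝 0) := by
        have h2 : Tendsto (fun z : ℂ => z * F 0) (𝓝[≠] 0) (𝓝 (0 * F 0)) :=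
          (tendsto_nhdsWithin_of_tendsto_nhds tendsto_id).mul_const _
        have h3 := (ht.add_const 1).sub h2
        simpa using h3
      refine h1.congr' ?_
      filter_upwards [self_mem_nhdsWithin] with z hz
      have hz0 : z ≠ 0 := hz
      simp only [hF, sub_zero, div_inv_eq_mul]
      field_simp
  set Ft : ℂ → ℂ := Function.update F 0 (limUnder (𝓝[≠] 0) F) with hFt
  have hdt : DifferentiableOn ℂ Ft S :=
    Complex.differentiableOn_update_limUnder_of_isLittleO hSn hdF ho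
  have hFtv : ∀ x : ℂ, x ≠ 0 → Ft x = g x + x⁻¹ := by
    intro x hx
    rw [hFt, Function.update_of_ne hx]
  have hint := Complex.integral_boundary_rect_eq_zero_of_differentiableOn Ft
    (-1 / 2 + (-1 / 2 : ℝ) * I) (1 / 2 + (1 / 2 : ℝ) * I) (by
      have e1 : (-1 / 2 + ((-1 / 2 : ℝ) : ℂ) * I).re = -1 / 2 := by simp
      have e2 : (1 / 2 + ((1 / 2 : ℝ) : ℂ) * I).re = 1 / 2 := by simp
      have e3 : (-1 / 2 + ((-1 / 2 : ℝ) : ℂ) * I).im = -1 / 2 := by simp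
      have e4 : (1 / 2 + ((1 / 2 : ℝ) : ℂ) * I).im = 1 / 2 := by simp
      rw [e1, e2, e3, e4]
      exact hdt)
  have e1 : (-1 / 2 + ((-1 / 2 : ℝ) : ℂ) * I).re = -1 / 2 := by simp
  have e2 : (1 / 2 + ((1 / 2 : ℝ) : ℂ) * I).re = 1 / 2 := by simp
  have e3 : (-1 / 2 + ((-1 / 2 : ℝ) : ℂ) * I).im = -1 / 2 := by simp
  have e4 : (1 / 2 + ((1 / 2 : ℝ) : ℂ) * I).im = 1 / 2 := by simp
  rw [e1, e2, e3, e4] at hint
  have hle : (-1 / 2 : ℝ) ≤ 1 / 2 := by norm_num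
  -- integrability
  have hci : ∀ a : ℝ, |a| ≤ 1 / 2 → ContinuousOn (fun x : ℝ => Ft (x + a * I)) (uIcc (-1 / 2) (1 / 2)) := by
    intro a ha
    refine hdt.continuousOn.comp (by fun_prop) ?_
    intro x hx
    rw [uIcc_of_le hle, mem_Icc] at hx
    rw [hmem]
    refine ⟨?_, by simpa using ha⟩
    rw [abs_le]
    simp
    constructor <;> linarith [hx.1, hx.2]
  have hcr : ∀ a : ℝ, |a| ≤ 1 / 2 → ContinuousOn (fun y : ℝ => Ft (a + y * I)) (uIcc (-1 / 2) (1 / 2)) := by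
    intro a ha
    refine hdt.continuousOn.comp (by fun_prop) ?_
    intro x hx
    rw [uIcc_of_le hle, mem_Icc] at hx
    rw [hmem]
    refine ⟨by simpa using ha, ?_⟩
    rw [abs_le]
    simp
    constructor <;> linarith [hx.1, hx.2]
  have hh : |(1 / 2 : ℝ)| ≤ 1 / 2 := by rw [abs_of_pos (by norm_num)]
  have hh' : |(-1 / 2 : ℝ)| ≤ 1 / 2 := by norm_num [abs_of_neg]
  have i1 := (hci _ hh').intervalIntegrable (μ := volume)
  have i2 := (hci _ hh).intervalIntegrable (μ := volume)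
  have i3 := (hcr _ hh').intervalIntegrable (μ := volume)
  have i4 := (hcr _ hh).intervalIntegrable (μ := volume)
  set J : ℂ := ∫ x in (-1 / 2 : ℝ)..(1 / 2), ((((x ^ 2 + 1 / 4)⁻¹ : ℝ)) : ℂ) with hJ
  have hA : (∫ x in (-1 / 2 : ℝ)..(1 / 2), Ft (x + ((-1 / 2 : ℝ) : ℂ) * I))
      - (∫ x in (-1 / 2 : ℝ)..(1 / 2), Ft (x + ((1 / 2 : ℝ) : ℂ) * I)) = I * J := by
    rw [← intervalIntegral.integral_sub i1 i2, hJ, ← intervalIntegral.integral_const_mul]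
    refine intervalIntegral.integral_congr ?_
    intro x _
    have n1 : (x : ℂ) + ((-1 / 2 : ℝ) : ℂ) * I ≠ 0 := by
      intro h
      have := congrArg Complex.im h
      simp at this
    have n2 : (x : ℂ) + ((1 / 2 : ℝ) : ℂ) * I ≠ 0 := by
      intro h
      have := congrArg Complex.im h
      simp at this
    have n3 : ((x : ℂ) ^ 2 + 1 / 4) ≠ 0 := by
      have h0 : (0 : ℝ) < x ^ 2 + 1 / 4 := by positivity
      have h1 : (((x ^ 2 + 1 / 4 : ℝ)) : ℂ) ≠ 0 := by exact_mod_cast h0.ne'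
      push_cast at h1
      exact h1
    have hper : g ((x : ℂ) + ((1 / 2 : ℝ) : ℂ) * I) = g ((x : ℂ) + ((-1 / 2 : ℝ) : ℂ) * I) := by
      rw [← hp ((x : ℂ) + ((-1 / 2 : ℝ) : ℂ) * I) I hIL]
      congr 1
      push_cast
      ring
    simp only
    rw [hFtv _ n1, hFtv _ n2, hper]
    have : g ((x : ℂ) + ((-1 / 2 : ℝ) : ℂ) * I) + ((x : ℂ) + ((-1 / 2 : ℝ) : ℂ) * I)⁻¹
        - (g ((x : ℂ) + ((-1 / 2 : ℝ) : ℂ) * I) + ((x : ℂ) + ((1 / 2 : ℝ) : ℂ) * I)⁻¹)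
        = ((x : ℂ) + ((-1 / 2 : ℝ) : ℂ) * I)⁻¹ - ((x : ℂ) + ((1 / 2 : ℝ) : ℂ) * I)⁻¹ := by ring
    rw [this, inv_sub_inv n1 n2]
    push_cast at n1 n2 ⊢
    rw [div_eq_iff (mul_ne_zero n1 n2),
      show ((x : ℂ) + -1 / 2 * I) * ((x : ℂ) + 1 / 2 * I) = (x : ℂ) ^ 2 + 1 / 4 by
        linear_combination (-1 / 4 : ℂ) * I_sq, mul_assoc, inv_mul_cancel₀ n3]
    ring
  have hB : (∫ y in (-1 / 2 : ℝ)..(1 / 2), Ft (((1 / 2 : ℝ) : ℂ) + y * I))
      - (∫ y in (-1 / 2 : ℝ)..(1 / 2), Ft (((-1 / 2 : ℝ) : ℂ) + y * I)) = J := by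
    rw [← intervalIntegral.integral_sub i4 i3, hJ]
    refine intervalIntegral.integral_congr ?_
    intro x _
    have n1 : ((1 / 2 : ℝ) : ℂ) + x * I ≠ 0 := by
      intro h
      have := congrArg Complex.re h
      simp at this
    have n2 : ((-1 / 2 : ℝ) : ℂ) + x * I ≠ 0 := by
      intro h
      have := congrArg Complex.re h
      simp at this
    have n3 : ((x : ℂ) ^ 2 + 1 / 4) ≠ 0 := by
      have h0 : (0 : ℝ) < x ^ 2 + 1 / 4 := by positivity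
      have h1 : (((x ^ 2 + 1 / 4 : ℝ)) : ℂ) ≠ 0 := by exact_mod_cast h0.ne'
      push_cast at h1
      exact h1
    have hper : g (((1 / 2 : ℝ) : ℂ) + x * I) = g (((-1 / 2 : ℝ) : ℂ) + x * I) := by
      rw [← hp (((-1 / 2 : ℝ) : ℂ) + x * I) 1 h1L]
      congr 1
      push_cast
      ring
    simp only
    rw [hFtv _ n1, hFtv _ n2, hper]
    have : g (((-1 / 2 : ℝ) : ℂ) + x * I) + (((1 / 2 : ℝ) : ℂ) + x * I)⁻¹
        - (g (((-1 / 2 : ℝ) : ℂ) + x * I) + (((-1 / 2 : ℝ) : ℂ) + x * I)⁻¹)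
        = (((1 / 2 : ℝ) : ℂ) + x * I)⁻¹ - (((-1 / 2 : ℝ) : ℂ) + x * I)⁻¹ := by ring
    rw [this, inv_sub_inv n1 n2]
    push_cast at n1 n2 ⊢
    rw [div_eq_iff (mul_ne_zero n1 n2),
      show (1 / 2 + (x : ℂ) * I) * (-1 / 2 + (x : ℂ) * I) = -((x : ℂ) ^ 2 + 1 / 4) by
        linear_combination ((x : ℂ) ^ 2) * I_sq, mul_neg, inv_mul_cancel₀ n3]
    ring
  have hz : 2 * I * J = 0 := by
    have : (∫ x in (-1 / 2 : ℝ)..(1 / 2), Ft (x + ((-1 / 2 : ℝ) : ℂ) * I))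
      - (∫ x in (-1 / 2 : ℝ)..(1 / 2), Ft (x + ((1 / 2 : ℝ) : ℂ) * I))
      + I * ((∫ y in (-1 / 2 : ℝ)..(1 / 2), Ft (((1 / 2 : ℝ) : ℂ) + y * I))
      - (∫ y in (-1 / 2 : ℝ)..(1 / 2), Ft (((-1 / 2 : ℝ) : ℂ) + y * I))) = 0 := by
      rw [mul_sub]
      simp only [smul_eq_mul] at hint
      linear_combination hint
    rw [hA, hB] at this
    linear_combination this
  have hJ0 : J = 0 := by
    have : (2 * I : ℂ) ≠ 0 := by simp
    exact (mul_eq_zero.mp hz).resolve_left this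
  rw [hJ, intervalIntegral.integral_ofReal] at hJ0
  have hJr : ∫ x in (-1 / 2 : ℝ)..(1 / 2), ((x ^ 2 + 1 / 4)⁻¹ : ℝ) = 0 := by exact_mod_cast hJ0
  have hpos : 0 < ∫ x in (-1 / 2 : ℝ)..(1 / 2), ((x ^ 2 + 1 / 4)⁻¹ : ℝ) := by
    refine intervalIntegral.intervalIntegral_pos_of_pos ?_ (fun x => by positivity) (by norm_num)
    refine Continuous.intervalIntegrable ?_ _ _
    refine Continuous.inv₀ (by fun_prop) ?_
    intro x
    positivity
  linarith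

end Run7.h964.SP
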